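import Pool.Agent.Helper19.Pack.Comp

/-!
# The number of ordered four-cycles is divisible by eight
-/

set_option autoImplicit false

open Finset

namespace Pool.Agent.Helper60.Pack

/-- halving a finite set by an involution -/
lemma card_halve {α : Type*} (X : Finset α) (σ : α → α) (P : α → Prop) [DecidablePred P]
    (h1 : ∀ x ∈ X, σ x ∈ X) (h2 : ∀ x ∈ X, σ (σ x) = x) (h3 : ∀ x ∈ X, (P (σ x) ↔ ¬ P x)) :
    X.card = 2 * (X.filter P).card := by
  have h4 : (X.filter P).card = (X.filter fun x => ¬ P x).card := by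
    refine card_bij' (fun x _ => σ x) (fun x _ => σ x) ?_ ?_ ?_ ?_
    · intro x hx
      rw [mem_filter] at hx ⊢
      exact ⟨h1 x hx.1, fun h => (h3 x hx.1).1 h hx.2⟩
    · intro x hx
      rw [mem_filter] at hx ⊢
      exact ⟨h1 x hx.1, (h3 x hx.1).2 hx.2⟩
    · intro x hx
      exact h2 x (mem_filter.1 hx).1
    · intro x hx
      exact h2 x (mem_filter.1 hx).1
  have h5 := card_filter_add_card_filter_not (s := X) P
  omega

section
variable {V : Type} [Fintype V] [DecidableEq V] (G : SimpleGraph V) [DecidableRel G.Adj]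

/-- ordered four-cycles `a, b, c, d` -/
def cyc : Finset (V × V × V × V) :=
  univ.filter fun p => G.Adj p.1 p.2.1 ∧ G.Adj p.2.1 p.2.2.1 ∧ G.Adj p.2.2.1 p.2.2.2 ∧
    G.Adj p.2.2.2 p.1 ∧ p.1 ≠ p.2.2.1 ∧ p.2.1 ≠ p.2.2.2

lemma cyc_card_dvd : 8 ∣ (cyc G).card := by
  classical
  obtain ⟨f⟩ : Nonempty (V ≃ Fin (Fintype.card V)) := ⟨Fintype.equivFin V⟩
  have hf : ∀ a b, f a = f b ↔ a = b := fun a b => f.injective.eq_iff
  have s1 := card_halve (cyc G) (fun p => (p.2.2.1, p.2.1, p.1, p.2.2.2)) (fun p => f p.1 < f p.2.2.1)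
    (by
      rintro ⟨a, b, c, d⟩ h
      simp only [cyc, mem_filter, mem_univ, true_and] at h ⊢
      exact ⟨h.2.1.symm, h.1.symm, h.2.2.2.1.symm, h.2.2.1.symm, h.2.2.2.2.1.symm, h.2.2.2.2.2⟩)
    (fun _ _ => rfl)
    (by
      rintro ⟨a, b, c, d⟩ h
      simp only [cyc, mem_filter, mem_univ, true_and] at h
      simp only
      have h1 : f a ≠ f c := fun h' => h.2.2.2.2.1 ((hf _ _).1 h')
      omega)
  have s2 := card_halve ((cyc G).filter fun p => f p.1 < f p.2.2.1)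
    (fun p => (p.1, p.2.2.2, p.2.2.1, p.2.1)) (fun p => f p.2.1 < f p.2.2.2)
    (by
      rintro ⟨a, b, c, d⟩ h
      simp only [cyc, mem_filter, mem_univ, true_and] at h ⊢
      exact ⟨⟨h.1.2.2.2.1.symm, h.1.2.2.1.symm, h.1.2.1.symm, h.1.1.symm, h.1.2.2.2.2.1,
        h.1.2.2.2.2.2.symm⟩, h.2⟩)
    (fun _ _ => rfl)
    (by
      rintro ⟨a, b, c, d⟩ h
      simp only [cyc, mem_filter, mem_univ, true_and] at h
      simp only
      have h1 : f b ≠ f d := fun h' => h.1.2.2.2.2.2 ((hf _ _).1 h')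
      omega)
  have s3 := card_halve (((cyc G).filter fun p => f p.1 < f p.2.2.1).filter
      fun p => f p.2.1 < f p.2.2.2)
    (fun p => (p.2.1, p.1, p.2.2.2, p.2.2.1)) (fun p => f p.1 < f p.2.1)
    (by
      rintro ⟨a, b, c, d⟩ h
      simp only [cyc, mem_filter, mem_univ, true_and] at h ⊢
      exact ⟨⟨⟨h.1.1.1.symm, h.1.1.2.2.2.1.symm, h.1.1.2.2.1.symm, h.1.1.2.1.symm,
        h.1.1.2.2.2.2.2, h.1.1.2.2.2.2.1⟩, h.2⟩, h.1.2⟩)
    (fun _ _ => rfl)
    (by
      rintro ⟨a, b, c, d⟩ h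
      simp only [cyc, mem_filter, mem_univ, true_and] at h
      simp only
      have h1 : f a ≠ f b := fun h' => h.1.1.1.ne ((hf _ _).1 h')
      omega)
  rw [s1, s2, s3]
  exact ⟨_, by ring⟩

/-- the ordered four-cycles counted by their first edge -/
lemma cyc_card : (cyc G).card = ∑ e ∈ (univ : Finset (V × V)).filter (fun e => G.Adj e.1 e.2),
    (oppE G e.1 e.2).card := by
  classical
  rw [← card_sigma]
  refine card_bij' (fun p _ => ⟨(p.1, p.2.1), (p.2.2.2, p.2.2.1)⟩) (fun q _ => (q.1.1, q.1.2, q.2.2, q.2.1))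
    ?_ ?_ ?_ ?_
  · rintro ⟨a, b, c, d⟩ h
    simp only [cyc, mem_filter, mem_univ, true_and] at h
    rw [mem_sigma, mem_filter]
    refine ⟨⟨mem_univ _, h.1⟩, ?_⟩
    unfold oppE
    rw [mem_filter]
    exact ⟨mem_univ _, h.2.2.2.1.symm, h.2.2.2.2.2.symm, h.2.1, h.2.2.2.2.1.symm, h.2.2.1.symm⟩
  · rintro ⟨⟨a, b⟩, ⟨d, c⟩⟩ h
    rw [mem_sigma, mem_filter] at h
    obtain ⟨⟨-, h1⟩, h2⟩ := h
    unfold oppE at h2
    rw [mem_filter] at h2
    simp only [cyc, mem_filter, mem_univ, true_and]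
    exact ⟨h1, h2.2.2.2.1, h2.2.2.2.2.2.symm, h2.2.1.symm, h2.2.2.2.2.1.symm, h2.2.2.1.symm⟩
  · rintro ⟨a, b, c, d⟩ _
    rfl
  · rintro ⟨⟨a, b⟩, ⟨d, c⟩⟩ _
    rfl

/-- if every edge has exactly two opposite edges then `4` divides `dIn` -/
theorem four_dvd_aux (h : ∀ u v, G.Adj u v → (oppE G u v).card = 2) : 4 ∣ dIn G univ := by
  have h1 := cyc_card G
  have h2 : ∑ e ∈ (univ : Finset (V × V)).filter (fun e => G.Adj e.1 e.2), (oppE G e.1 e.2).card =
      dIn G univ * 2 := by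
    rw [sum_const_nat (m := 2) (fun e he => h _ _ (mem_filter.1 he).2)]
    unfold dIn
    rw [univ_product_univ]
  rw [h2] at h1
  have h3 := cyc_card_dvd G
  omega

end

end Pool.Agent.Helper60.Pack
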