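import Pool.Agent.Helper19.Pack.Ge
import Pool.Agent.Helper19.Pack.Four
import Pool.Agent.Helper67.Pack.Sep

/-!
# The edge bound for planar triangle-free graphs
-/

set_option autoImplicit false

open Finset

namespace Pool.Agent.Helper60.Pack

/-- **the edge bound**: a planar triangle-free graph on `n ≥ 3` vertices has at most `2n - 4` edges -/
theorem edge_bound {V : Type} [Fintype V] [DecidableEq V] (G : SimpleGraph V) [DecidableRel G.Adj]
    (h3 : G.CliqueFree 3) (hP : Planar G) (hn : 3 ≤ Fintype.card V) :
    dIn G univ + 8 ≤ 4 * Fintype.card V := by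
  refine edge_bound_of (fun s h => h.induce s) (fun h hG => hG.mono h) ?_ ?_ ?_ G hn h3 hP
  · intro V _ _ G _ hd hIH h3 hP hn u v huv hle
    exact opp_ge_two' G hd hIH h3 hP hn u v huv hle
  · intro V _ _ G _ hd hmin h3 hP hn u v huv x y hinj hx hxv hy hyu hxy
    exact opp_le_two G hd hmin h3 hP hn u v huv x y hinj hx hxv hy hyu hxy
  · intro V _ _ G _ _ h2
    exact four_dvd_aux G h2

/-- the hereditary form: every nonempty vertex set `S` spans at most `2|S| - 2` edges -/
theorem sparse_of_planar {V : Type} [Fintype V] [DecidableEq V] (G : SimpleGraph V)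
    [DecidableRel G.Adj] (h3 : G.CliqueFree 3) (hP : Planar G) (S : Finset V) (hS : S.Nonempty) :
    dIn G S + 4 ≤ 4 * S.card :=
  sparse_aux (fun s h => h.induce s) (fun V _ _ G _ hn h3 hP => edge_bound G h3 hP hn) G h3 hP S hS

end Pool.Agent.Helper60.Pack
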