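import Pool.Agent.Helper19.Pack.Outer

/-!
# Composition of the edge bound from the three local facts
-/

set_option autoImplicit false

open Finset

namespace Pool.Agent.Helper60.Pack

/-- the edges opposite to `uv` in the four-cycles through `uv` -/
def oppE {V : Type} [Fintype V] [DecidableEq V] (G : SimpleGraph V) [DecidableRel G.Adj] (u v : V) :
    Finset (V × V) :=
  univ.filter (fun p => G.Adj u p.1 ∧ p.1 ≠ v ∧ G.Adj v p.2 ∧ p.2 ≠ u ∧ G.Adj p.1 p.2)

/-- **the edge bound** from the three local facts -/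
theorem edge_bound_of
    (hind : ∀ {V : Type} {G : SimpleGraph V} (s : Set V), Planar G → Planar (G.induce s))
    (hmono : ∀ {V : Type} {G H : SimpleGraph V}, H ≤ G → Planar G → Planar H)
    (hge : ∀ (V : Type) [Fintype V] [DecidableEq V] (G : SimpleGraph V) [DecidableRel G.Adj],
      4 * Fintype.card V ≤ dIn G univ + 6 → BoundBelow' (Fintype.card V) → G.CliqueFree 3 → Planar G →
      6 ≤ Fintype.card V → ∀ u v : V, G.Adj u v → (oppE G u v).card ≤ 1 → False)
    (hle : ∀ (V : Type) [Fintype V] [DecidableEq V] (G : SimpleGraph V) [DecidableRel G.Adj],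
      4 * Fintype.card V ≤ dIn G univ + 6 →
      (∀ S : Finset V, 3 ≤ S.card → S ≠ univ → dIn G S + 8 ≤ 4 * S.card) →
      G.CliqueFree 3 → Planar G → 6 ≤ Fintype.card V → ∀ u v : V, G.Adj u v → ∀ x y : Fin 3 → V,
      (∀ i j, i ≠ j → (x i, y i) ≠ (x j, y j)) → (∀ i, G.Adj u (x i)) → (∀ i, x i ≠ v) →
      (∀ i, G.Adj v (y i)) → (∀ i, y i ≠ u) → (∀ i, G.Adj (x i) (y i)) → False)
    (hdvd : ∀ (V : Type) [Fintype V] [DecidableEq V] (G : SimpleGraph V) [DecidableRel G.Adj],
      G.CliqueFree 3 → (∀ u v, G.Adj u v → (oppE G u v).card = 2) → 4 ∣ dIn G univ)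
    {V : Type} [Fintype V] [DecidableEq V] (G : SimpleGraph V) [DecidableRel G.Adj]
    (hn : 3 ≤ Fintype.card V) (h3 : G.CliqueFree 3) (hP : Planar G) :
    dIn G univ + 8 ≤ 4 * Fintype.card V := by
  refine outer hind hmono (fun V _ _ G _ h6 h3 hP hB hmin hd => ?_) _ V G rfl hn h3 hP
  have h2 : ∀ u v, G.Adj u v → (oppE G u v).card = 2 := by
    intro u v huv
    by_contra hne
    rcases Nat.lt_or_ge (oppE G u v).card 2 with h | h
    · exact hge V G (by omega) hB h3 hP h6 u v huv (by omega)
    · obtain ⟨a, b, c, ha, hb, hc, hab, hac, hbc⟩ := (two_lt_card_iff (s := oppE G u v)).1 (by omega)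
      unfold oppE at ha hb hc
      rw [mem_filter] at ha hb hc
      refine hle V G (by omega) hmin h3 hP h6 u v huv ![a.1, b.1, c.1] ![a.2, b.2, c.2] ?_ ?_ ?_ ?_ ?_ ?_
      · intro i j hij h
        fin_cases i <;> fin_cases j <;> simp [Prod.ext_iff] at hij h hab hac hbc <;> tauto
      · intro i; fin_cases i
        · exact ha.2.1
        · exact hb.2.1
        · exact hc.2.1
      · intro i; fin_cases i
        · exact ha.2.2.1
        · exact hb.2.2.1
        · exact hc.2.2.1
      · intro i; fin_cases i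
        · exact ha.2.2.2.1
        · exact hb.2.2.2.1
        · exact hc.2.2.2.1
      · intro i; fin_cases i
        · exact ha.2.2.2.2.1
        · exact hb.2.2.2.2.1
        · exact hc.2.2.2.2.1
      · intro i; fin_cases i
        · exact ha.2.2.2.2.2
        · exact hb.2.2.2.2.2
        · exact hc.2.2.2.2.2
  have h4 := hdvd V G h3 h2
  omega

end Pool.Agent.Helper60.Pack
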