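import Pool.Agent.Helper19.Pack.Comp
import Pool.Agent.Helper84.Pack.Minor

/-!
# Every edge of a minimal counterexample lies in at least two four-cycles
-/

set_option autoImplicit false

open Finset

namespace Pool.Agent.Helper60.Pack

/-- **every edge has at least two opposite edges** -/
theorem opp_ge_two' {V : Type} [Fintype V] [DecidableEq V] (G : SimpleGraph V) [DecidableRel G.Adj]
    (hd : 4 * Fintype.card V ≤ dIn G univ + 6) (hIH : BoundBelow' (Fintype.card V))
    (h3 : G.CliqueFree 3) (hP : Planar G) (hn : 6 ≤ Fintype.card V)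
    (u v : V) (huv : G.Adj u v) (hle : (oppE G u v).card ≤ 1) : False := by
  classical
  have tri : ∀ a b c : V, G.Adj a b → G.Adj a c → G.Adj b c → False := fun a b c hab hac hbc =>
    h3 {a, b, c} (SimpleGraph.is3Clique_iff.2 ⟨a, b, c, hab, hac, hbc, rfl⟩)
  -- the possibly existing opposite edge
  obtain ⟨x0, y0, ⟨hx0v, hy0v, hxy0⟩, hx0⟩ : ∃ x0 y0 : V, (x0 ≠ v ∧ y0 ≠ v ∧ (x0 = u ↔ y0 = u)) ∧
      ∀ x y, G.Adj u x → x ≠ v → G.Adj v y → y ≠ u → G.Adj x y → x = x0 ∧ y = y0 := by
    rcases (oppE G u v).eq_empty_or_nonempty with he | ⟨⟨x0, y0⟩, h0⟩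
    · refine ⟨u, u, ⟨huv.ne, huv.ne, Iff.rfl⟩, fun x y h1 h2 h3 h4 h5 => ?_⟩
      have : (x, y) ∈ oppE G u v := mem_filter.2 ⟨mem_univ _, h1, h2, h3, h4, h5⟩
      rw [he] at this
      simp at this
    · have h0' := (mem_filter.1 h0).2
      refine ⟨x0, y0, ⟨h0'.2.1, h0'.2.2.1.ne', ?_⟩, fun x y h1 h2 h3 h4 h5 => ?_⟩
      · exact ⟨fun h => absurd h h0'.1.ne', fun h => absurd h h0'.2.2.2.1⟩
      have : (x, y) ∈ oppE G u v := mem_filter.2 ⟨mem_univ _, h1, h2, h3, h4, h5⟩
      have h6 := card_le_one.1 hle _ this _ h0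
      exact ⟨(Prod.mk.inj h6).1, (Prod.mk.inj h6).2⟩
  -- the contracted graph without the opposite edge
  let H : SimpleGraph {x : V // x ≠ v} :=
    { Adj := fun x y => (contr G u v).Adj x y ∧ ¬ ((x : V) = x0 ∧ (y : V) = y0) ∧
        ¬ ((x : V) = y0 ∧ (y : V) = x0)
      symm := ⟨fun x y h => ⟨h.1.symm, fun h' => h.2.2 ⟨h'.2, h'.1⟩, fun h' => h.2.1 ⟨h'.2, h'.1⟩⟩⟩
      loopless := ⟨fun x h => (contr G u v).loopless.irrefl x h.1⟩ }
  have hHle : H ≤ contr G u v := fun x y h => h.1
  have hHP : Planar H := (hP.contr huv).mono hHle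
  have hH3 : H.CliqueFree 3 := by
    intro S hS
    obtain ⟨a, b, c, hab, hac, hbc, -⟩ := SimpleGraph.is3Clique_iff.1 hS
    -- the key step: no triangle through u
    have key : ∀ a b c : {x : V // x ≠ v}, (a : V) = u → H.Adj a b → H.Adj a c → H.Adj b c → False := by
      intro a b c ha hab hac hbc
      have hbu : (b : V) ≠ u := fun h => hab.1.1 (Subtype.ext (ha.trans h.symm))
      have hcu : (c : V) ≠ u := fun h => hac.1.1 (Subtype.ext (ha.trans h.symm))
      have hb : G.Adj u b ∨ G.Adj v b := by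
        rcases hab.1.2 with h | h | h
        · exact Or.inl (ha ▸ h)
        · exact Or.inr h.2
        · exact absurd h.1 hbu
      have hc : G.Adj u c ∨ G.Adj v c := by
        rcases hac.1.2 with h | h | h
        · exact Or.inl (ha ▸ h)
        · exact Or.inr h.2
        · exact absurd h.1 hcu
      have hbc' : G.Adj b c := by
        rcases hbc.1.2 with h | h | h
        · exact h
        · exact absurd h.1 hbu
        · exact absurd h.1 hcu
      rcases hb with hb | hb <;> rcases hc with hc | hc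
      · exact tri _ _ _ hb hc hbc'
      · exact hbc.2.1 (hx0 b c hb b.2 hc hcu hbc')
      · have := hx0 c b hc c.2 hb hbu hbc'.symm
        exact hbc.2.2 ⟨this.2, this.1⟩
      · exact tri _ _ _ hb hc hbc'
    by_cases ha : (a : V) = u
    · exact key a b c ha hab hac hbc
    by_cases hb : (b : V) = u
    · exact key b a c hb hab.symm hbc hac
    by_cases hc : (c : V) = u
    · exact key c a b hc hac.symm hbc.symm hab
    have adj : ∀ x y : {x : V // x ≠ v}, (x : V) ≠ u → (y : V) ≠ u → H.Adj x y → G.Adj x y := by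
      intro x y hx hy h
      rcases h.1.2 with h | h | h
      · exact h
      · exact absurd h.1 hx
      · exact absurd h.1 hy
    exact tri a b c (adj _ _ ha hb hab) (adj _ _ ha hc hac) (adj _ _ hb hc hbc)
  -- counting
  let r : V → {x : V // x ≠ v} := fun x => if h : x = v then ⟨u, huv.ne⟩ else ⟨x, h⟩
  have rv : r v = ⟨u, huv.ne⟩ := dif_pos rfl
  have rn : ∀ x (h : x ≠ v), r x = ⟨x, h⟩ := fun x h => dif_neg h
  have hcardW : Fintype.card {x : V // x ≠ v} = Fintype.card V - 1 := by
    rw [Fintype.card_subtype_compl, Fintype.card_subtype_eq]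
  have hB := hIH {x : V // x ≠ v} H (by omega) (by omega) hH3 hHP
  have hcount : dIn G univ ≤ dIn H univ + 4 := by
    unfold dIn
    let X : Finset (V × V) := (univ ×ˢ univ).filter (fun p => G.Adj p.1 p.2)
    let Y : Finset (V × V) := {(u, v), (v, u), (x0, y0), (y0, x0)}
    have hY : Y.card ≤ 4 := card_le_four
    have hXY : X.card ≤ (X \ Y).card + Y.card := by
      exact card_le_card_sdiff_add_card
    have hinj : (X \ Y).card ≤ ((univ ×ˢ univ).filter (fun p => H.Adj p.1 p.2)).card := by
      refine card_le_card_of_injOn (fun p => (r p.1, r p.2)) ?_ ?_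
      · rintro ⟨a, b⟩ hab
        rw [mem_coe, mem_sdiff, mem_filter] at hab
        obtain ⟨⟨-, hadj⟩, hnY⟩ := hab
        simp only [Y, mem_insert, mem_singleton, Prod.mk.injEq, not_or, not_and] at hnY hadj
        obtain ⟨hY1, hY2, hY3, hY4⟩ := hnY
        simp only [mem_coe, mem_filter, mem_product, mem_univ, true_and]
        by_cases ha : a = v
        · subst ha
          have hbu : b ≠ u := hY2 rfl
          rw [rv, rn b hadj.ne']
          refine ⟨⟨fun h => hbu (Subtype.mk.inj h).symm, Or.inr (Or.inl ⟨rfl, hadj⟩)⟩, ?_, ?_⟩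
          · rintro ⟨h1, h2⟩
            exact hbu (h2.trans (hxy0.1 h1.symm))
          · rintro ⟨h1, h2⟩
            exact hbu (h2.trans (hxy0.2 h1.symm))
        by_cases hb : b = v
        · subst hb
          have hau : a ≠ u := fun h => hY1 h rfl
          rw [rv, rn a ha]
          refine ⟨⟨fun h => hau (Subtype.mk.inj h), Or.inr (Or.inr ⟨rfl, hadj.symm⟩)⟩, ?_, ?_⟩
          · rintro ⟨h1, h2⟩
            exact hau (h1.trans (hxy0.2 h2.symm))
          · rintro ⟨h1, h2⟩
            exact hau (h1.trans (hxy0.1 h2.symm))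
        rw [rn a ha, rn b hb]
        exact ⟨⟨fun h => hadj.ne (Subtype.mk.inj h), Or.inl hadj⟩, fun h => hY3 h.1 h.2,
          fun h => hY4 h.1 h.2⟩
      · rintro ⟨a, b⟩ hab ⟨c, d⟩ hcd h
        rw [mem_coe, mem_sdiff, mem_filter] at hab hcd
        obtain ⟨⟨-, hadj⟩, hnY⟩ := hab
        obtain ⟨⟨-, hadj'⟩, hnY'⟩ := hcd
        simp only [Y, mem_insert, mem_singleton, Prod.mk.injEq, not_or, not_and] at hnY hadj hnY' hadj'
        simp only [Prod.mk.injEq] at h
        have hr : ∀ x y : V, r x = r y → x = y ∨ (x = v ∧ y = u) ∨ (x = u ∧ y = v) := by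
          intro x y hxy
          by_cases hx : x = v <;> by_cases hy : y = v
          · exact Or.inl (hx.trans hy.symm)
          · rw [hx, rv, rn y hy] at hxy
            exact Or.inr (Or.inl ⟨hx, (Subtype.mk.inj hxy).symm⟩)
          · rw [hy, rv, rn x hx] at hxy
            exact Or.inr (Or.inr ⟨Subtype.mk.inj hxy, hy⟩)
          · rw [rn x hx, rn y hy] at hxy
            exact Or.inl (Subtype.mk.inj hxy)
        rcases hr a c h.1 with h1 | ⟨h1, h1'⟩ | ⟨h1, h1'⟩ <;>
          rcases hr b d h.2 with h2 | ⟨h2, h2'⟩ | ⟨h2, h2'⟩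
        · rw [h1, h2]
        · subst h1; subst h2; subst h2'
          exact (tri a _ _ hadj' hadj huv).elim
        · subst h1; subst h2; subst h2'
          exact (tri a _ _ hadj hadj' huv).elim
        · subst h1; subst h2; subst h1'
          exact (tri b _ _ hadj'.symm hadj.symm huv).elim
        · subst h1; subst h2
          exact (hadj.ne rfl).elim
        · exact (hnY.2.1 h1 h2).elim
        · subst h1; subst h2; subst h1'
          exact (tri b _ _ hadj.symm hadj'.symm huv).elim
        · exact (hnY.1 h1 h2).elim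
        · subst h1; subst h2
          exact (hadj.ne rfl).elim
    exact (hXY.trans (Nat.add_le_add hinj hY))
  omega

end Pool.Agent.Helper60.Pack
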