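import Pool.Agent.Helper60.Pack.Defs
import Pool.Agent.Helper60.Pack.Core

/-!
# From lists to correspondence covers

A finite graph in which every nonempty vertex set `S` spans at most `2|S| - 2` edges is packable for
lists of size four.
-/

set_option autoImplicit false

open Finset

namespace Pool.Agent.Helper60.Pack

/-- lists of size four are joined along an edge by a permutation of the positions which is the identity
of the common colours -/
theorem exists_perm {A B : Finset ℕ} (a : Fin 4 ≃ A) (b : Fin 4 ≃ B) :
    ∃ σ : Equiv.Perm (Fin 4), ∀ c d, ((b c : ℕ) = a d) → σ c = d := by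
  classical
  let p : Fin 4 → Prop := fun c => (b c : ℕ) ∈ A
  let q : Fin 4 → Prop := fun d => (a d : ℕ) ∈ B
  let e : {c // p c} ≃ {d // q d} :=
    { toFun := fun c => ⟨a.symm ⟨b c, c.2⟩, by
        show (a (a.symm ⟨b c, c.2⟩) : ℕ) ∈ B
        rw [Equiv.apply_symm_apply]
        exact (b c).2⟩
      invFun := fun d => ⟨b.symm ⟨a d, d.2⟩, by
        show (b (b.symm ⟨a d, d.2⟩) : ℕ) ∈ A
        rw [Equiv.apply_symm_apply]
        exact (a d).2⟩
      left_inv := by
        intro c
        apply Subtype.ext
        simp
      right_inv := by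
        intro d
        apply Subtype.ext
        simp }
  refine ⟨e.extendSubtype, fun c d h => ?_⟩
  have hc : p c := by
    show (b c : ℕ) ∈ A
    rw [h]
    exact (a d).2
  rw [Equiv.extendSubtype_apply_of_mem e c hc]
  show a.symm ⟨b c, hc⟩ = d
  rw [Equiv.symm_apply_eq]
  exact Subtype.ext h

theorem packable_four {V : Type} [Fintype V] [DecidableEq V] (G : SimpleGraph V)
    [DecidableRel G.Adj] (hsp : ∀ S : Finset V, S.Nonempty → dIn G S + 4 ≤ 4 * S.card) :
    Packable G 4 := by
  classical
  intro L hL
  -- the ends of an edge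
  let s : G.edgeSet → V := fun e => (Quot.out e.1).1
  let t : G.edgeSet → V := fun e => (Quot.out e.1).2
  have hst : ∀ e : G.edgeSet, s(s e, t e) = e.1 := fun e => Quot.out_eq e.1
  have hadj : ∀ e : G.edgeSet, G.Adj (s e) (t e) := fun e => by
    rw [← SimpleGraph.mem_edgeSet, hst]
    exact e.2
  -- positions of the colours
  let l : ∀ v, Fin 4 ≃ L v := fun v => ((L v).equivFinOfCardEq (hL v)).symm
  choose σ hσ using fun e : G.edgeSet => exists_perm (l (s e)) (l (t e))
  obtain ⟨x, hx⟩ := packing s t σ (by
    intro S hS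
    have h1 := hsp S hS
    have h2 : 2 * (univ.filter fun i : G.edgeSet => s i ∈ S ∧ t i ∈ S).card ≤ dIn G S := by
      set F := univ.filter fun i : G.edgeSet => s i ∈ S ∧ t i ∈ S with hF
      have h3 : (F ×ˢ (univ : Finset Bool)).card = 2 * F.card := by
        rw [card_product, mul_comm]
        rfl
      rw [← h3]
      unfold dIn
      refine card_le_card_of_injOn (fun p => if p.2 then (s p.1, t p.1) else (t p.1, s p.1)) ?_ ?_
      · rintro ⟨e, b⟩ he
        have he' : e ∈ F := (mem_product.1 he).1
        rw [hF, mem_filter] at he'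
        have h4 := hadj e
        rw [Finset.mem_coe, mem_filter, mem_product]
        cases b
        · exact ⟨⟨he'.2.2, he'.2.1⟩, h4.symm⟩
        · exact ⟨⟨he'.2.1, he'.2.2⟩, h4⟩
      · rintro ⟨e, b⟩ _ ⟨e', b'⟩ _ h
        have h4 := hadj e
        have h5 := hadj e'
        have h6 := hst e
        have h7 := hst e'
        have key : ∀ u v u' v' : V, (u, v) = (u', v') → s(u, v) = s(u', v') := by
          intro u v u' v' h
          rw [(Prod.mk.inj h).1, (Prod.mk.inj h).2]
        have hee : e = e' := by
          apply Subtype.ext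
          rw [← h6, ← h7]
          cases b <;> cases b' <;> simp only [if_true, if_false, Bool.false_eq_true] at h
          · rw [Sym2.eq_swap, Sym2.eq_swap (a := s e')]; exact key _ _ _ _ h
          · rw [Sym2.eq_swap]; exact key _ _ _ _ h
          · rw [Sym2.eq_swap (a := s e')]; exact key _ _ _ _ h
          · exact key _ _ _ _ h
        subst hee
        cases b <;> cases b' <;> simp only [if_true, if_false, Bool.false_eq_true] at h
        · rfl
        · exact absurd (Prod.mk.inj h).2 h4.ne
        · exact absurd (Prod.mk.inj h).1 h4.ne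
        · rfl
    omega)
  let ε : Fin 4 ≃ Pos := Fintype.equivOfCardEq (by simp)
  refine ⟨fun i v => (l v ((x v).symm (ε i)) : ℕ), fun i v => (l v _).2, ?_, ?_⟩
  · -- proper
    have key : ∀ (e : G.edgeSet) (i : Fin 4),
        (l (s e) ((x (s e)).symm (ε i)) : ℕ) ≠ l (t e) ((x (t e)).symm (ε i)) := by
      intro e i h
      have h1 := hσ e _ _ h.symm
      have h2 := hx e ((x (t e)).symm (ε i))
      rw [h1, Equiv.apply_symm_apply, Equiv.apply_symm_apply] at h2
      exact h2 rfl
    intro i u v huv
    have h1 := key ⟨s(u, v), huv⟩ i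
    have h2 : s(s ⟨s(u, v), huv⟩, t ⟨s(u, v), huv⟩) = s(u, v) := hst ⟨s(u, v), huv⟩
    rw [Sym2.eq_iff] at h2
    rcases h2 with ⟨h2, h3⟩ | ⟨h2, h3⟩
    · rw [h2, h3] at h1
      exact h1
    · rw [h2, h3] at h1
      exact h1.symm
  · -- disjoint
    intro i j v hij h
    have h1 := (l v).injective (Subtype.ext h)
    exact hij (ε.injective ((x v).symm.injective h1))

end Pool.Agent.Helper60.Pack
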