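import Pool.Agent.Helper60.Pack.Defs

/-!
# The outer induction of the edge bound
-/

set_option autoImplicit false

open Finset

namespace Pool.Agent.Helper60.Pack

section
variable {V : Type} [Fintype V] [DecidableEq V] (G : SimpleGraph V) [DecidableRel G.Adj]

/-- `dIn G univ` is twice the number of edges -/
lemma dIn_univ : dIn G univ = 2 * G.edgeFinset.card := by
  rw [← G.sum_degrees_eq_twice_card_edges]
  unfold dIn
  rw [card_filter, sum_product]
  refine sum_congr rfl fun v _ => ?_
  rw [← card_filter]
  congr 1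
  ext w
  simp

omit [Fintype V] in
/-- edges inside `S` are the edges of the induced graph -/
lemma dIn_induce (S : Finset V) [DecidableRel (G.induce (S : Set V)).Adj] :
    dIn (G.induce (S : Set V)) (univ : Finset (S : Set V)) = dIn G S := by
  unfold dIn
  refine card_bij (fun p _ => ((p.1 : V), (p.2 : V))) ?_ ?_ ?_
  · rintro ⟨⟨a, ha⟩, ⟨b, hb⟩⟩ h
    rw [mem_filter] at h
    rw [mem_filter, mem_product]
    exact ⟨⟨ha, hb⟩, h.2⟩
  · rintro ⟨⟨a, ha⟩, ⟨b, hb⟩⟩ _ ⟨⟨a', ha'⟩, ⟨b', hb'⟩⟩ _ h
    obtain ⟨h1, h2⟩ := Prod.mk.inj h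
    simp only at h1 h2
    subst h1
    subst h2
    rfl
  · rintro ⟨a, b⟩ h
    rw [mem_filter, mem_product] at h
    exact ⟨(⟨a, h.1.1⟩, ⟨b, h.1.2⟩), by rw [mem_filter]; exact ⟨mem_product.2 ⟨mem_univ _, mem_univ _⟩, h.2⟩, rfl⟩

/-- Mantel's bound in the small cases -/
lemma dIn_small (h3 : G.CliqueFree 3) (hn : 3 ≤ Fintype.card V) (hn' : Fintype.card V ≤ 5) :
    dIn G univ + 8 ≤ 4 * Fintype.card V := by
  have h := h3.card_edgeFinset_le (r := 2)
  rw [dIn_univ]
  simp only at h
  generalize Fintype.card V = n at *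
  interval_cases n <;> simp at h <;> omega

/-- delete edges to get the number of edges right -/
lemma exists_sub (m : ℕ) (hm : 2 * m ≤ dIn G univ) :
    ∃ (H : SimpleGraph V) (_ : DecidableRel H.Adj), H ≤ G ∧ dIn H univ = 2 * m := by
  classical
  rw [dIn_univ] at hm
  obtain ⟨F, hF, hc⟩ := exists_subset_card_eq (s := G.edgeFinset) (n := m) (by omega)
  refine ⟨SimpleGraph.fromEdgeSet (F : Set (Sym2 V)), inferInstance, ?_, ?_⟩
  · rw [← SimpleGraph.edgeSet_subset_edgeSet, SimpleGraph.edgeSet_fromEdgeSet]
    intro e he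
    have := hF he.1
    rwa [SimpleGraph.mem_edgeFinset] at this
  · rw [dIn_univ]
    congr 1
    rw [← hc]
    have h1 : (SimpleGraph.fromEdgeSet (F : Set (Sym2 V))).edgeSet = (F : Set (Sym2 V)) := by
      rw [SimpleGraph.edgeSet_fromEdgeSet]
      ext e
      constructor
      · intro h; exact h.1
      · intro h
        refine ⟨h, ?_⟩
        have := hF h
        rw [SimpleGraph.mem_edgeFinset] at this
        exact G.not_isDiag_of_mem_edgeSet this
    have h2 : ∀ (K : SimpleGraph V) [Fintype K.edgeSet], K.edgeFinset.card = Set.ncard K.edgeSet := by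
      intro K _
      rw [← SimpleGraph.coe_edgeFinset, Set.ncard_coe_finset]
    rw [h2, h1, Set.ncard_coe_finset]

end

/-- the edge bound for all graphs with fewer than `n` vertices -/
def BoundBelow' (n : ℕ) : Prop := ∀ (W : Type) [Fintype W] [DecidableEq W] (H : SimpleGraph W)
  [DecidableRel H.Adj], Fintype.card W < n → 3 ≤ Fintype.card W → H.CliqueFree 3 → Planar H →
  dIn H univ + 8 ≤ 4 * Fintype.card W

/-- the outer induction: `step` excludes a graph with exactly `2n - 3` edges -/
theorem outer (hind : ∀ {V : Type} {G : SimpleGraph V} (s : Set V), Planar G → Planar (G.induce s))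
    (hmono : ∀ {V : Type} {G H : SimpleGraph V}, H ≤ G → Planar G → Planar H)
    (step : ∀ (V : Type) [Fintype V] [DecidableEq V] (G : SimpleGraph V) [DecidableRel G.Adj],
      6 ≤ Fintype.card V → G.CliqueFree 3 → Planar G → BoundBelow' (Fintype.card V) →
      (∀ S : Finset V, 3 ≤ S.card → S ≠ univ → dIn G S + 8 ≤ 4 * S.card) →
      dIn G univ + 6 = 4 * Fintype.card V → False) :
    ∀ (n : ℕ) (V : Type) [Fintype V] [DecidableEq V] (G : SimpleGraph V) [DecidableRel G.Adj],
      Fintype.card V = n → 3 ≤ n → G.CliqueFree 3 → Planar G → dIn G univ + 8 ≤ 4 * n := by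
  intro n
  induction n using Nat.strong_induction_on with
  | _ n ih =>
    intro V _ _ G _ hV hn h3 hP
    by_cases h5 : n ≤ 5
    · rw [← hV]
      exact dIn_small G h3 (by omega) (by omega)
    by_contra hcon
    have hev : dIn G univ = 2 * G.edgeFinset.card := dIn_univ G
    obtain ⟨H, hHd, hle, hH⟩ := exists_sub G (2 * n - 3) (by omega)
    have hbelow : BoundBelow' (Fintype.card V) := by
      intro W _ _ K _ hW hW3 hK3 hKP
      exact ih _ (by omega) W K rfl hW3 hK3 hKP
    have hH3 : H.CliqueFree 3 := h3.anti hle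
    have hHP : Planar H := hmono hle hP
    refine step V H (by omega) hH3 hHP hbelow (fun S hS hne => ?_) (by omega)
    classical
    have h6 : Fintype.card (S : Set V) = S.card := by simp
    have h7 : S.card < Fintype.card V := by
      rw [← card_univ]
      exact card_lt_card ((ssubset_univ_iff).2 hne)
    have h8 := hbelow (S : Set V) (H.induce (S : Set V)) (by omega) (by omega)
      (SimpleGraph.CliqueFree.comap ⟨(SimpleGraph.Embedding.induce (S : Set V)).toCopy⟩ hH3) (hind _ hHP)
    rw [h6, dIn_induce] at h8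
    exact h8

/-- the hereditary form -/
theorem sparse_aux (hind : ∀ {V : Type} {G : SimpleGraph V} (s : Set V), Planar G → Planar (G.induce s))
    (hB : ∀ (V : Type) [Fintype V] [DecidableEq V] (G : SimpleGraph V) [DecidableRel G.Adj],
      3 ≤ Fintype.card V → G.CliqueFree 3 → Planar G → dIn G univ + 8 ≤ 4 * Fintype.card V)
    {V : Type} [Fintype V] [DecidableEq V] (G : SimpleGraph V) [DecidableRel G.Adj]
    (h3 : G.CliqueFree 3) (hP : Planar G) (S : Finset V) (hS : S.Nonempty) :
    dIn G S + 4 ≤ 4 * S.card := by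
  classical
  by_cases h : 3 ≤ S.card
  · have h6 : Fintype.card (S : Set V) = S.card := by simp
    have h8 := hB (S : Set V) (G.induce (S : Set V)) (by omega)
      (SimpleGraph.CliqueFree.comap ⟨(SimpleGraph.Embedding.induce (S : Set V)).toCopy⟩ h3) (hind _ hP)
    rw [h6, dIn_induce] at h8
    omega
  · have h1 : 0 < S.card := hS.card_pos
    have h2 : dIn G S ≤ S.card * (S.card - 1) := by
      unfold dIn
      calc _ ≤ S.offDiag.card := by
            refine card_le_card fun p hp => ?_
            rw [mem_filter, mem_product] at hp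
            rw [mem_offDiag]
            exact ⟨hp.1.1, hp.1.2, hp.2.ne⟩
        _ = S.card * (S.card - 1) := by
            rw [offDiag_card, Nat.mul_sub, mul_one]
    generalize S.card = k at *
    interval_cases k <;> omega

end Pool.Agent.Helper60.Pack
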